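import Pool.Agent.H30.DomH

set_option autoImplicit false

namespace Pool.Agent.Results.MP_bab3d5_co.Four

/-- Q1: for odd `r, c` not both `3` mod `4` and an even white hole `(i, j)`, the number of
perfect matchings of the `r × c` grid minus the hole is divisible by `4`. -/
theorem result :
    ∀ r c : ℕ, Odd r → Odd c → ¬ (r % 4 = 3 ∧ c % 4 = 3) →
      ∀ i j : ℕ, 1 ≤ i → i ≤ r → 1 ≤ j → j ≤ c → Even i → Even j →
      ∀ R : Set (ℕ × ℕ),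
        R = {p : ℕ × ℕ | 1 ≤ p.1 ∧ p.1 ≤ r ∧ 1 ≤ p.2 ∧ p.2 ≤ c ∧ p ≠ (i, j)} →
        4 ∣ Nat.card {f : R → R // ∀ x : R, f (f x) = x ∧
            ((x.1.1 = (f x).1.1 ∧ (x.1.2 + 1 = (f x).1.2 ∨ (f x).1.2 + 1 = x.1.2)) ∨
             (x.1.2 = (f x).1.2 ∧ (x.1.1 + 1 = (f x).1.1 ∨ (f x).1.1 + 1 = x.1.1)))} := by
  intro r c hr hc h3 i j h1 h2 h4 h5 hi hj R hR
  have e : R = ↑(Pool.Agent.H30.Dom.HR r c i j) := by
    rw [hR]
    ext p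
    rw [Finset.mem_coe, Pool.Agent.H30.Dom.mem_HR, Set.mem_ofPred_eq, Ne, Prod.ext_iff]
  subst e
  exact Pool.Agent.H30.Dom.hole_main r c i j (Nat.odd_iff.1 hr) (Nat.odd_iff.1 hc) h3 h1 h2 h4 h5
    (Nat.even_iff.1 hi) (Nat.even_iff.1 hj)

end Pool.Agent.Results.MP_bab3d5_co.Four
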